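import Mathlib

/-!
# Out-degree-2 vertex-transitive digraphs need arbitrarily large stabilizers

For a prime `p` let `D_p` be the digraph on `ZMod p × ZMod 2 × ZMod 2` with arcs
`(i,a,b) → (i+1,b,c)` (the line digraph of the directed `p`-cycle with doubled vertices).
It is vertex-transitive of out-degree `2`, and every Cayley-coset presentation `D(G,S,H)` of it has
`4 |H| ≥ p`.
-/

namespace Pool.Agent.Results.MP_89824e_co.LargeStabilizers

universe u

/-- `x → y` is an arc of the Cayley-coset digraph `D(G,S,H)`: `x = gH`, `y = g'H` with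
`g⁻¹ g' ∈ H S H`. -/
def CosetArc {G : Type u} [Group G] (S : Set G) (H : Subgroup G) (x y : G ⧸ H) : Prop :=
  ∃ g g' : G, (g : G ⧸ H) = x ∧ (g' : G ⧸ H) = y ∧
    ∃ h₁ ∈ H, ∃ s ∈ S, ∃ h₂ ∈ H, g⁻¹ * g' = h₁ * s * h₂

/-- `(G,S,H)` gives a Cayley-coset presentation of the digraph with arc relation `A` on `V`:
`S ∩ H = ∅` and `D(G,S,H)` is isomorphic to `(V, A)`. -/
def IsPresentation {V : Type} (A : V → V → Prop) (G : Type u) [Group G] (S : Set G)
    (H : Subgroup G) : Prop :=
  (∀ s ∈ S, s ∉ H) ∧ ∃ φ : (G ⧸ H) ≃ V, ∀ x y, CosetArc S H x y ↔ A (φ x) (φ y)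

/-- The digraph with arc relation `A` is vertex-transitive. -/
def VertexTransitive {V : Type} (A : V → V → Prop) : Prop :=
  ∀ x y : V, ∃ α : V ≃ V, (∀ u v, A (α u) (α v) ↔ A u v) ∧ α x = y

/-- arcs of `D_p`. -/
def Arc (p : ℕ) (x y : ZMod p × ZMod 2 × ZMod 2) : Prop := y.1 = x.1 + 1 ∧ y.2.1 = x.2.2

theorem const_of_step {p : ℕ} [NeZero p] {X : Type*} (f : ZMod p → X)
    (h : ∀ i, f (i + 1) = f i) (i : ZMod p) : f i = f 0 := by
  have key : ∀ n : ℕ, f (n : ZMod p) = f 0 := by
    intro n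
    induction n with
    | zero => simp
    | succ n ih => rw [Nat.cast_succ, h, ih]
  have := key i.val
  rwa [ZMod.natCast_val, ZMod.cast_id', id] at this

theorem zmod2_cases (a : ZMod 2) : a = 0 ∨ a = 1 := by
  revert a; decide

/-- every automorphism of `D_p` is a rotation combined with level-wise flips. -/
theorem structure_lemma {p : ℕ} [NeZero p] (α : ZMod p × ZMod 2 × ZMod 2 → ZMod p × ZMod 2 × ZMod 2)
    (hinj : Function.Injective α) (hA : ∀ u v, Arc p u v → Arc p (α u) (α v)) :
    ∃ k : ZMod p, ∃ e : ZMod p → ZMod 2, ∀ i a b, α (i, a, b) = (i + k, a + e i, b + e (i + 1)) := by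
  have arc : ∀ i a b c, Arc p (i, a, b) (i + 1, b, c) := fun i a b c => ⟨rfl, rfl⟩
  have h1 : ∀ i a b c, (α (i + 1, b, c)).1 = (α (i, a, b)).1 + 1 :=
    fun i a b c => (hA _ _ (arc i a b c)).1
  have h2 : ∀ i a b c, (α (i + 1, b, c)).2.1 = (α (i, a, b)).2.2 :=
    fun i a b c => (hA _ _ (arc i a b c)).2
  -- independence of the level shift
  have ha : ∀ i a a' b, (α (i, a, b)).1 = (α (i, a', b)).1 := by
    intro i a a' b
    have e1 := h1 i a b 0
    have e2 := h1 i a' b 0
    rw [e1] at e2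
    exact add_right_cancel e2
  have hb : ∀ i a b b', (α (i, a, b)).1 = (α (i, a, b')).1 := by
    intro i a b b'
    have e1 := h1 (i - 1) 0 a b
    have e2 := h1 (i - 1) 0 a b'
    rw [sub_add_cancel] at e1 e2
    rw [e1, e2]
  have hab : ∀ i a b, (α (i, a, b)).1 = (α (i, 0, 0)).1 := by
    intro i a b
    rw [ha i a 0 b, hb i 0 b 0]
  have hstep : ∀ i, (α (i + 1, 0, 0)).1 - (i + 1) = (α (i, 0, 0)).1 - i := by
    intro i
    rw [h1 i 0 0 0]; ring
  have hconst := const_of_step (fun i : ZMod p => (α (i, 0, 0)).1 - i) hstep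
  have hlev : ∀ i a b, (α (i, a, b)).1 = i + ((α (0, 0, 0)).1 - 0) := by
    intro i a b
    rw [hab i a b]
    rw [← hconst i]; ring
  -- independence of the other coordinates
  have hF : ∀ i a b b', (α (i, a, b)).2.1 = (α (i, a, b')).2.1 := by
    intro i a b b'
    have e1 := h2 (i - 1) 0 a b
    have e2 := h2 (i - 1) 0 a b'
    rw [sub_add_cancel] at e1 e2
    rw [e1, e2]
  have hG : ∀ i a a' b, (α (i, a, b)).2.2 = (α (i, a', b)).2.2 := by
    intro i a a' b
    rw [← h2 i a b 0, ← h2 i a' b 0]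
  have hflip : ∀ i, (α (i, 1, 0)).2.1 = 1 + (α (i, 0, 0)).2.1 := by
    intro i
    have hne : (α (i, 1, 0)).2.1 ≠ (α (i, 0, 0)).2.1 := by
      intro h
      have : α (i, 1, 0) = α (i, 0, 0) := by
        refine Prod.ext (hab i 1 0) (Prod.ext h (hG i 1 0 0))
      have h3 := hinj this
      simp at h3
    rcases zmod2_cases (α (i, 1, 0)).2.1 with h | h <;>
      rcases zmod2_cases (α (i, 0, 0)).2.1 with h' | h' <;> rw [h, h'] at hne ⊢
    · exact absurd rfl hne
    · decide
    · decide
    · exact absurd rfl hne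
  have hfst : ∀ i a b, (α (i, a, b)).2.1 = a + (α (i, 0, 0)).2.1 := by
    intro i a b
    rw [hF i a b 0]
    rcases zmod2_cases a with rfl | rfl
    · simp
    · exact hflip i
  refine ⟨(α (0, 0, 0)).1 - 0, fun i => (α (i, 0, 0)).2.1, ?_⟩
  intro i a b
  refine Prod.ext (hlev i a b) (Prod.ext (hfst i a b) ?_)
  show (α (i, a, b)).2.2 = b + (α (i + 1, 0, 0)).2.1
  rw [← h2 i a b 0]
  exact hfst (i + 1) b 0

theorem cosetArc_smul {G : Type u} [Group G] (S : Set G) (H : Subgroup G) (g : G) (x y : G ⧸ H)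
    (h : CosetArc S H x y) : CosetArc S H (g • x) (g • y) := by
  obtain ⟨a, b, rfl, rfl, h₁, hh₁, s, hs, h₂, hh₂, he⟩ := h
  refine ⟨g * a, g * b, rfl, rfl, h₁, hh₁, s, hs, h₂, hh₂, ?_⟩
  rw [← he]; group

theorem bound {p : ℕ} [Fact p.Prime] (G : Type u) [Group G] [Finite G] (S : Set G)
    (H : Subgroup G) (hP : IsPresentation (Arc p) G S H) : p ≤ 4 * Nat.card H := by
  have hp : p.Prime := Fact.out
  have : NeZero p := ⟨hp.ne_zero⟩
  obtain ⟨-, φ, hφ⟩ := hP
  obtain ⟨act, hact⟩ : ∃ act : G → (ZMod p × ZMod 2 × ZMod 2) → (ZMod p × ZMod 2 × ZMod 2),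
      ∀ g v, act g v = φ (g • φ.symm v) := ⟨_, fun _ _ => rfl⟩
  have act_mul : ∀ g g' v, act (g * g') v = act g (act g' v) := by
    intro g g' v
    simp only [hact, Equiv.symm_apply_apply, mul_smul]
  have act_inj : ∀ g, Function.Injective (act g) := by
    intro g u v huv
    rw [hact, hact] at huv
    have := φ.injective huv
    exact φ.symm.injective ((MulAction.injective g) this)
  have act_arc : ∀ g u v, Arc p u v → Arc p (act g u) (act g v) := by
    intro g u v huv
    rw [hact, hact]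
    refine (hφ _ _).1 (cosetArc_smul S H g _ _ ((hφ _ _).2 ?_))
    simpa using huv
  have act_trans : ∀ u v, ∃ g, act g u = v := by
    intro u v
    obtain ⟨g, hg⟩ := MulAction.exists_smul_eq G (φ.symm u) (φ.symm v)
    exact ⟨g, by simp only [hact, hg, Equiv.apply_symm_apply]⟩
  choose k e hke using fun g => structure_lemma (act g) (act_inj g) (act_arc g)
  have k_mul : ∀ g g', k (g * g') = k g' + k g := by
    intro g g'
    have h := act_mul g g' (0, 0, 0)
    rw [hke, hke, hke] at h
    have := congrArg Prod.fst h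
    simp only [zero_add] at this
    exact this
  have e_mul : ∀ g g' i, e (g * g') i = e g' i + e g (i + k g') := by
    intro g g' i
    have h := act_mul g g' (i, 0, 0)
    rw [hke, hke, hke] at h
    have := congrArg (fun v => v.2.1) h
    simp only [zero_add] at this
    exact this
  obtain ⟨g0, hg0⟩ := act_trans (0, 0, 0) (1, 0, 0)
  obtain ⟨h0, hh0⟩ := act_trans (0, 0, 0) (0, 1, 0)
  have kg0 : k g0 = 1 := by
    rw [hke] at hg0
    have := congrArg Prod.fst hg0
    simpa using this
  have kh0 : k h0 = 0 := by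
    rw [hke] at hh0
    have := congrArg Prod.fst hh0
    simpa using this
  have eh0 : e h0 0 = 1 := by
    rw [hke] at hh0
    have := congrArg (fun v => v.2.1) hh0
    simpa using this
  have eh1 : e h0 1 = 0 := by
    rw [hke] at hh0
    have := congrArg (fun v => v.2.2) hh0
    simpa using this
  have k_pow : ∀ n : ℕ, k (g0 ^ n) = n := by
    intro n
    induction n with
    | zero =>
      have := k_mul 1 1
      rw [mul_one] at this
      simpa using this
    | succ n ih => rw [pow_succ, k_mul, ih, kg0]; push_cast; ring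
  obtain ⟨y, hy⟩ : ∃ y : ℕ → G, ∀ j, y j * g0 ^ j = g0 ^ j * h0 :=
    ⟨fun j => g0 ^ j * h0 * (g0 ^ j)⁻¹, fun j => by simp only; group⟩
  have ky : ∀ j, k (y j) = 0 := by
    intro j
    have h := congrArg k (hy j)
    rw [k_mul, k_mul, kh0, zero_add] at h
    simpa using h
  have ey : ∀ j i, e (y j) (i + j) = e h0 i := by
    intro j i
    have h : e (y j * g0 ^ j) i = e (g0 ^ j * h0) i := by rw [hy j]
    rw [e_mul, e_mul, kh0, add_zero, k_pow] at h
    have h' : e (g0 ^ j) i + e (y j) (i + j) = e (g0 ^ j) i + e h0 i := by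
      rw [h]; ring
    exact add_left_cancel h'
  -- the `p²` elements
  have hinj : Function.Injective (fun q : Fin p × Fin p => g0 ^ (q.1 : ℕ) * y (q.2 : ℕ)) := by
    rintro ⟨m, j⟩ ⟨m', j'⟩ h
    simp only at h
    have hk := congrArg k h
    rw [k_mul, k_mul, ky, ky, zero_add, zero_add, k_pow, k_pow] at hk
    have hm : (m : ℕ) = (m' : ℕ) := by
      have := (ZMod.natCast_eq_natCast_iff' _ _ _).1 hk
      rwa [Nat.mod_eq_of_lt m.2, Nat.mod_eq_of_lt m'.2] at this
    rw [hm] at h
    have hyy := mul_left_cancel h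
    have hj : (j : ℕ) = (j' : ℕ) := by
      by_contra hne
      set t : ZMod p := ((j : ℕ) : ZMod p) - ((j' : ℕ) : ZMod p) with ht
      have htne : t ≠ 0 := by
        intro h0'
        apply hne
        have : ((j : ℕ) : ZMod p) = ((j' : ℕ) : ZMod p) := sub_eq_zero.1 h0'
        have := (ZMod.natCast_eq_natCast_iff' _ _ _).1 this
        rwa [Nat.mod_eq_of_lt j.2, Nat.mod_eq_of_lt j'.2] at this
      have hper : ∀ i, e h0 (i + t) = e h0 i := by
        intro i
        have h1 := ey j i
        have h2 := ey j' (i + t)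
        rw [← h1, ← h2, hyy]
        congr 1
        rw [ht]; ring
      have hstep : ∀ n : ZMod p, e h0 ((n + 1) * t) = e h0 (n * t) := by
        intro n
        rw [add_mul, one_mul]; exact hper _
      have hc : e h0 (t⁻¹ * t) = e h0 (0 * t) :=
        const_of_step (fun n : ZMod p => e h0 (n * t)) hstep t⁻¹
      rw [inv_mul_cancel₀ htne, zero_mul, eh1, eh0] at hc
      exact absurd hc (by decide)
    exact Prod.ext (Fin.ext hm) (Fin.ext hj)
  have hcard : p * p ≤ Nat.card G := by
    have := Nat.card_le_card_of_injective _ hinj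
    simpa [Nat.card_prod] using this
  have hG : Nat.card G = (p * 4) * Nat.card H := by
    rw [Subgroup.card_eq_card_quotient_mul_card_subgroup H, Nat.card_congr φ, Nat.card_prod,
      Nat.card_prod, Nat.card_zmod, Nat.card_zmod]
  rw [hG, mul_assoc] at hcard
  exact Nat.le_of_mul_le_mul_left hcard hp.pos

theorem result (M : ℕ) :
    ∃ (V : Type) (_ : Finite V) (A : V → V → Prop),
      (∀ v, ¬ A v v) ∧ (∀ v, {w | A v w}.ncard = 2) ∧ VertexTransitive A ∧
      ∀ (G : Type u) [Group G] [Finite G] (S : Set G) (H : Subgroup G),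
        IsPresentation A G S H → M < Nat.card H := by
  obtain ⟨p, hpM, hp⟩ := Nat.exists_infinite_primes (4 * M + 1)
  have : Fact p.Prime := ⟨hp⟩
  have : NeZero p := ⟨hp.ne_zero⟩
  have : Fact (1 < p) := ⟨hp.one_lt⟩
  refine ⟨ZMod p × ZMod 2 × ZMod 2, inferInstance, Arc p, ?_, ?_, ?_, ?_⟩
  · rintro ⟨i, a, b⟩ ⟨h, -⟩
    simp at h
  · rintro ⟨i, a, b⟩
    have : {w | Arc p (i, a, b) w} = {(i + 1, b, 0), (i + 1, b, 1)} := by
      ext ⟨j, c, d⟩
      constructor
      · rintro ⟨h1, h2⟩
        simp only at h1 h2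
        subst h1 h2
        rcases zmod2_cases d with rfl | rfl
        · left; rfl
        · right; rfl
      · rintro (h | h) <;> (rw [h]; exact ⟨rfl, rfl⟩)
    rw [this, Set.ncard_pair]
    intro h
    simp at h
  · rintro ⟨i, a, b⟩ ⟨j, c, d⟩
    let e : ZMod p → ZMod 2 := fun x => if x = i then c - a else if x = i + 1 then d - b else 0
    refine ⟨⟨fun v => (v.1 + (j - i), v.2.1 + e v.1, v.2.2 + e (v.1 + 1)),
      fun v => (v.1 - (j - i), v.2.1 - e (v.1 - (j - i)), v.2.2 - e (v.1 - (j - i) + 1)),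
      ?_, ?_⟩, ?_, ?_⟩
    · rintro ⟨x, y, z⟩
      simp
    · rintro ⟨x, y, z⟩
      simp
    · rintro ⟨x, y, z⟩ ⟨x', y', z'⟩
      simp only [Arc, Equiv.coe_fn_mk]
      constructor
      · rintro ⟨h1, h2⟩
        have hx : x' = x + 1 := by
          have : x' + (j - i) = (x + 1) + (j - i) := by rw [h1]; ring
          exact add_right_cancel this
        subst hx
        exact ⟨rfl, add_right_cancel h2⟩
      · rintro ⟨h1, h2⟩
        subst h1 h2
        exact ⟨by ring, rfl⟩
    · simp only [Equiv.coe_fn_mk]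
      have hne : i + 1 ≠ i := by
        intro h
        simp at h
      refine Prod.ext (by simp) (Prod.ext ?_ ?_)
      · simp [e]
      · simp [e]
  · intro G _ _ S H hP
    have := bound G S H hP
    omega

end Pool.Agent.Results.MP_89824e_co.LargeStabilizers
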